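import Pool.Agent.W886.VL.Stm

set_option autoImplicit false

namespace Pool.Agent.W352.VL

open Pool.Agent.W886.VL
open ZFSet (pair omega)

/-- `n` is the code of a formula -/
def IsCode (n : ℕ) : Prop := ∃ φ : NF, φ.code = n

theorem isCode_iff (n : ℕ) : IsCode n ↔
    n.unpair.1 ≤ 2 ∨ (n.unpair.1 = 3 ∧ IsCode n.unpair.2) ∨
    (n.unpair.1 = 4 ∧ IsCode n.unpair.2.unpair.1 ∧ IsCode n.unpair.2.unpair.2) ∨
    ((n.unpair.1 = 5 ∨ n.unpair.1 = 6) ∧ IsCode n.unpair.2.unpair.2) := by
  constructor
  · rintro ⟨φ, rfl⟩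
    cases φ with
    | eq i j => left; simp [NF.code]
    | mem i j => left; simp [NF.code]
    | tup j xs => left; simp [NF.code]
    | neg φ => right; left; simp only [NF.code, Nat.unpair_pair]; exact ⟨trivial, φ, rfl⟩
    | and φ ψ =>
      right; right; left; simp only [NF.code, Nat.unpair_pair]
      exact ⟨trivial, ⟨φ, rfl⟩, ⟨ψ, rfl⟩⟩
    | allD k φ =>
      right; right; right; simp only [NF.code, Nat.unpair_pair]
      exact ⟨Or.inl trivial, φ, rfl⟩
    | all k φ =>
      right; right; right; simp only [NF.code, Nat.unpair_pair]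
      exact ⟨Or.inr trivial, φ, rfl⟩
  · intro h
    have hn : n = Nat.pair n.unpair.1 n.unpair.2 := (Nat.pair_unpair n).symm
    have hm : n.unpair.2 = Nat.pair n.unpair.2.unpair.1 n.unpair.2.unpair.2 :=
      (Nat.pair_unpair _).symm
    rcases h with h | ⟨h1, φ, h2⟩ | ⟨h1, ⟨φ, h2⟩, ⟨ψ, h3⟩⟩ | ⟨h1, ⟨φ, h2⟩⟩
    · interval_cases hc : n.unpair.1
      · exact ⟨.eq n.unpair.2.unpair.1 n.unpair.2.unpair.2, by
          rw [NF.code, ← hm, ← hn]⟩
      · exact ⟨.mem n.unpair.2.unpair.1 n.unpair.2.unpair.2, by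
          rw [NF.code, ← hm, ← hn]⟩
      · refine ⟨.tup n.unpair.2.unpair.1 (Denumerable.ofNat (List ℕ) n.unpair.2.unpair.2), ?_⟩
        rw [NF.code, Denumerable.encode_ofNat, ← hm, ← hn]
    · exact ⟨.neg φ, by rw [NF.code, h2, ← h1, ← hn]⟩
    · exact ⟨.and φ ψ, by rw [NF.code, h2, h3, ← hm, ← h1, ← hn]⟩
    · rcases h1 with h1 | h1
      · exact ⟨.allD n.unpair.2.unpair.1 φ, by rw [NF.code, h2, ← hm, ← h1, ← hn]⟩
      · exact ⟨.all n.unpair.2.unpair.1 φ, by rw [NF.code, h2, ← hm, ← h1, ← hn]⟩

noncomputable def fC (n : ℕ) : Bool := by classical exact decide (IsCode n)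

theorem fC_true (n : ℕ) : fC n = true ↔ IsCode n := by unfold fC; simp

def gC (l : List Bool) : Bool :=
  let n := l.length
  let a := n.unpair.1
  let m := n.unpair.2
  (a.blt 3) || ((a == 3) && (l[m]?).getD false) ||
    ((a == 4) && ((l[m.unpair.1]?).getD false && (l[m.unpair.2]?).getD false)) ||
    (((a == 5) || (a == 6)) && (l[m.unpair.2]?).getD false)

theorem gC_prim : Primrec gC := by
  have hn : Primrec (fun l : List Bool => l.length) := Primrec.list_length
  have ha : Primrec (fun l : List Bool => l.length.unpair.1) :=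
    Primrec.fst.comp (Primrec.unpair.comp hn)
  have hm : Primrec (fun l : List Bool => l.length.unpair.2) :=
    Primrec.snd.comp (Primrec.unpair.comp hn)
  have hm1 : Primrec (fun l : List Bool => l.length.unpair.2.unpair.1) :=
    Primrec.fst.comp (Primrec.unpair.comp hm)
  have hm2 : Primrec (fun l : List Bool => l.length.unpair.2.unpair.2) :=
    Primrec.snd.comp (Primrec.unpair.comp hm)
  have hget : ∀ {f : List Bool → ℕ}, Primrec f → Primrec (fun l : List Bool => (l[f l]?).getD false) := by
    intro f hf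
    exact Primrec.option_getD.comp (Primrec.list_getElem?.comp Primrec.id hf) (Primrec.const false)
  have hbeq : ∀ k : ℕ, Primrec (fun l : List Bool => (l.length.unpair.1 == k)) := by
    intro k
    exact Primrec.beq.comp ha (Primrec.const k)
  have hlt : Primrec (fun l : List Bool => (l.length.unpair.1.blt 3)) := by
    have h := (Primrec.nat_lt.comp ha (Primrec.const 3)).decide
    refine h.of_eq fun l => ?_
    rw [Bool.eq_iff_iff]
    simp [Nat.blt_eq]
  unfold gC
  exact Primrec.or.comp (Primrec.or.comp (Primrec.or.comp hlt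
    (Primrec.and.comp (hbeq 3) (hget hm)))
    (Primrec.and.comp (hbeq 4) (Primrec.and.comp (hget hm1) (hget hm2))))
    (Primrec.and.comp (Primrec.or.comp (hbeq 5) (hbeq 6)) (hget hm2))

theorem gC_spec (n : ℕ) : gC ((List.range n).map fC) = fC n := by
  rw [Bool.eq_iff_iff, fC_true, isCode_iff]
  have hget : ∀ k, k < n → (((List.range n).map fC)[k]?).getD false = fC k := by
    intro k hk
    rw [List.getElem?_map, List.getElem?_range hk]
    rfl
  have hle : n.unpair.1 + n.unpair.2 ≤ n := Nat.unpair_add_le n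
  have hl : n.unpair.2.unpair.1 ≤ n.unpair.2 := Nat.unpair_left_le _
  have hr : n.unpair.2.unpair.2 ≤ n.unpair.2 := Nat.unpair_right_le _
  unfold gC
  simp only [List.length_map, List.length_range]
  by_cases h0 : n.unpair.1 ≤ 2
  · have : n.unpair.1.blt 3 = true := by rw [Nat.blt_eq]; omega
    simp [this, h0]
  · rw [hget _ (by omega), hget _ (by omega), hget _ (by omega)]
    have : n.unpair.1.blt 3 = false := by
      rw [Bool.eq_false_iff, Ne, Nat.blt_eq]; omega
    rw [this]
    simp only [Bool.false_or, Bool.or_eq_true, Bool.and_eq_true, beq_iff_eq, fC_true, h0, false_or,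
      or_assoc]

theorem isCode_re : REPred IsCode := by
  have h : Primrec fC := by
    have h1 : Primrec₂ (fun (_ : Unit) (n : ℕ) => fC n) :=
      Primrec.nat_strong_rec _ (g := fun _ l => some (gC l))
        (Primrec.option_some.comp (gC_prim.comp Primrec.snd)) (fun _ n => by
          show some (gC ((List.range n).map fC)) = some (fC n)
          rw [gC_spec])
    exact h1.comp (Primrec.const ()) Primrec.id
  have h2 : PrimrecPred IsCode := by
    have h3 : PrimrecPred (fun n => fC n = true) := Primrec.eq.comp h (Primrec.const true)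
    exact h3.of_eq fun n => fC_true n
  exact (PrimrecPred.computablePred h2).to_re

end Pool.Agent.W352.VL
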