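import Pool.Agent.W886.VL.Stm

set_option autoImplicit false

namespace Pool.Agent.W352.VL

open Pool.Agent.W886.VL
open SOCat (Fml cons)
open ZFSet (pair omega)

/-- explicit conditions for `F = FSet y` -/
structure FC (F y : ZFSet.{0}) : Prop where
  c1 : ∀ f ∈ F, (∀ p ∈ f, ∃ n : ℕ, ∃ x ∈ y, p = pair (num n) x) ∧
    (∀ n : ℕ, ∃ x ∈ y, pair (num n) x ∈ f ∧ ∀ x' ∈ y, pair (num n) x' ∈ f → x' = x) ∧
    (∃ N : ℕ, ∀ n : ℕ, num n ∈ num N ∨ ∀ x ∈ y, pair (num n) x ∈ f → x = ∅)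
  c2 : (∃ e ∈ y, e = ∅) → ∃ f ∈ F, ∀ p ∈ f, ∃ n : ℕ, ∃ e ∈ y, e = ∅ ∧ p = pair (num n) e
  c3 : ∀ f ∈ F, ∀ n : ℕ, ∀ a ∈ y, ∃ f' ∈ F, IsUpd f' f (num n) a

theorem FC_FSet (y : ZFSet.{0}) : FC (FSet y) y where
  c1 := by
    intro f hf
    obtain ⟨s, hs, rfl⟩ := mem_FSet.1 hf
    obtain ⟨h1, N, hN⟩ := hs
    refine ⟨?_, ?_, N, ?_⟩
    · intro p hp
      obtain ⟨n, rfl⟩ := mem_fnZ.1 hp
      exact ⟨n, s n, h1 n, rfl⟩
    · intro n
      exact ⟨s n, h1 n, pair_mem_fnZ.2 rfl, fun x' _ h => pair_mem_fnZ.1 h⟩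
    · intro n
      by_cases h : n < N
      · exact Or.inl (num_mem_num.2 h)
      · right
        intro x _ hx
        rw [pair_mem_fnZ.1 hx, hN n (not_lt.1 h)]
  c2 := by
    rintro ⟨e, he, rfl⟩
    refine ⟨fnZ (fun _ => ∅), fnZ_mem_FSet.2 ⟨fun _ => he, 0, fun _ _ => rfl⟩, ?_⟩
    intro p hp
    obtain ⟨n, rfl⟩ := mem_fnZ.1 hp
    exact ⟨n, ∅, he, rfl, rfl⟩
  c3 := by
    intro f hf n a ha
    obtain ⟨s, hs, rfl⟩ := mem_FSet.1 hf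
    exact ⟨fnZ (Function.update s n a), fnZ_mem_FSet.2 (hs.update n ha), isUpd_iff.2 rfl⟩

theorem FC.sub {F y : ZFSet.{0}} (h : FC F y) {f : ZFSet.{0}} (hf : f ∈ F) :
    ∃ s, FSup y s ∧ f = fnZ s := by
  obtain ⟨h1, h2, N, hN⟩ := h.c1 f hf
  choose s hs1 hs2 hs3 using h2
  refine ⟨s, ⟨hs1, N, ?_⟩, ?_⟩
  · intro n hn
    rcases hN n with h | h
    · exact absurd (num_mem_num.1 h) (not_lt.2 hn)
    · exact h _ (hs1 n) (hs2 n)
  · ext p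
    rw [mem_fnZ]
    constructor
    · intro hp
      obtain ⟨n, x, hx, rfl⟩ := h1 p hp
      exact ⟨n, by rw [hs3 n x hx hp]⟩
    · rintro ⟨n, rfl⟩
      exact hs2 n

theorem FC.sup {F y : ZFSet.{0}} (h : FC F y) : ∀ (N : ℕ) (s : ℕ → ZFSet.{0}), (∀ n, s n ∈ y) →
    (∀ n, N ≤ n → s n = ∅) → fnZ s ∈ F := by
  intro N
  induction N with
  | zero =>
    intro s hs hN
    have he : (∅ : ZFSet.{0}) ∈ y := by
      have := hs 0
      rwa [hN 0 le_rfl] at this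
    obtain ⟨f, hf, hp⟩ := h.c2 ⟨∅, he, rfl⟩
    obtain ⟨s', _, rfl⟩ := h.sub hf
    have : s' = s := by
      funext n
      obtain ⟨m, e, _, rfl, h2⟩ := hp _ (mem_fnZ.2 ⟨n, rfl⟩)
      rw [ZFSet.pair_inj] at h2
      rw [h2.2, hN n (Nat.zero_le _)]
    rwa [← this]
  | succ N ih =>
    intro s hs hN
    have he : (∅ : ZFSet.{0}) ∈ y := by
      have := hs (N + 1)
      rwa [hN (N + 1) le_rfl] at this
    have h1 : fnZ (Function.update s N ∅) ∈ F := by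
      apply ih
      · intro n
        by_cases hn : n = N
        · subst hn; rwa [Function.update_self]
        · rw [Function.update_of_ne hn]; exact hs n
      · intro n hn
        by_cases hn' : n = N
        · subst hn'; rw [Function.update_self]
        · rw [Function.update_of_ne hn']; exact hN n (by omega)
    obtain ⟨f', hf', hu⟩ := h.c3 _ h1 N (s N) (hs N)
    obtain ⟨s', _, rfl⟩ := h.sub hf'
    rw [isUpd_iff] at hu
    have : s' = s := by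
      rw [hu, Function.update_idem, Function.update_eq_self]
    rwa [← this]

theorem FC_iff (F y : ZFSet.{0}) : FC F y ↔ F = FSet y := by
  constructor
  · intro h
    ext f
    rw [mem_FSet]
    constructor
    · exact fun hf => h.sub hf
    · rintro ⟨s, ⟨hs, N, hN⟩, rfl⟩
      exact h.sup N s hs hN
  · rintro rfl
    exact FC_FSet y

/-- `IsUpd` is definable -/
theorem d_upd {C : ZFSet.{0} → Prop} [TC C] (s' s k a : ℕ) :
    Dfn C fun _ v => IsUpd (v s') (v s) (v k) (v a) :=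
  ((d_app k a s').and (((Dfn.mem 0 (s+1)).or (d_pair 0 (k+1) (a+1))).allB s')).congr
    fun _ _ _ _ => Iff.rfl

theorem fsTask : T_FS := by
  have d1a : Dfn Base (fun _ v => ∀ f ∈ v 0, ∀ p ∈ f, ∃ n : ℕ, ∃ x ∈ v 1, p = pair (num n) x) :=
    ((((d_pair 2 1 0).exB 4).exOm.allB 0).allB 0).congr fun _ _ _ _ => Iff.rfl
  have d1b : Dfn Base (fun _ v => ∀ f ∈ v 0, ∀ n : ℕ, ∃ x ∈ v 1, pair (num n) x ∈ f ∧
      ∀ x' ∈ v 1, pair (num n) x' ∈ f → x' = x) :=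
    ((((d_app 1 0 2).and (((d_app 2 0 3).imp (Dfn.eq 0 1)).allB 4)).exB 3).allOm.allB 0).congr
      fun _ _ _ _ => Iff.rfl
  have d1c : Dfn Base (fun _ v => ∀ f ∈ v 0, ∃ N : ℕ, ∀ n : ℕ, num n ∈ num N ∨
      ∀ x ∈ v 1, pair (num n) x ∈ f → x = ∅) :=
    (((Dfn.mem 0 1).or (((d_app 1 0 3).imp (d_emp 0)).allB 4)).allOm.exOm.allB 0).congr
      fun _ _ _ _ => Iff.rfl
  have d2 : Dfn Base (fun _ v => (∃ e ∈ v 1, e = ∅) → ∃ f ∈ v 0, ∀ p ∈ f, ∃ n : ℕ, ∃ e ∈ v 1,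
      e = ∅ ∧ p = pair (num n) e) :=
    (((d_emp 0).exB 1).imp
      ((((((d_emp 0).and (d_pair 2 1 0)).exB 4).exOm).allB 0).exB 0)).congr
      fun _ _ _ _ => Iff.rfl
  have d3 : Dfn Base (fun _ v => ∀ f ∈ v 0, ∀ n : ℕ, ∀ a ∈ v 1, ∃ f' ∈ v 0,
      IsUpd f' f (num n) a) :=
    ((((d_upd 0 3 2 1).exB 3).allB 3).allOm.allB 0).congr fun _ _ _ _ => Iff.rfl
  refine ((d1a.and (d1b.and d1c)).and (d2.and d3)).congr fun A hA v hv => ?_
  rw [← FC_iff]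
  constructor
  · rintro ⟨⟨h1, h2, h3⟩, h4, h5⟩
    exact ⟨fun f hf => ⟨h1 f hf, h2 f hf, h3 f hf⟩, h4, h5⟩
  · rintro ⟨h1, h2, h3⟩
    exact ⟨⟨fun f hf => (h1 f hf).1, fun f hf => (h1 f hf).2.1, fun f hf => (h1 f hf).2.2⟩, h2, h3⟩

end Pool.Agent.W352.VL
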