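import Pool.Agent.W886.VL.Stm
import Pool.Agent.W352.VL.FS

set_option autoImplicit false

namespace Pool.Agent.W352.VL

open Pool.Agent.W886.VL
open SOCat (Fml cons)
open ZFSet (pair omega)

theorem pair_comp {A a b : ZFSet.{0}} (hA : A.IsTransitive) (h : pair a b ∈ A) : a ∈ A ∧ b ∈ A := by
  have h1 : ({a, b} : ZFSet.{0}) ∈ A := hA _ h (ZFSet.mem_pair.2 (Or.inr rfl))
  exact ⟨hA _ h1 (ZFSet.mem_pair.2 (Or.inl rfl)), hA _ h1 (ZFSet.mem_pair.2 (Or.inr rfl))⟩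

theorem quad_comp {A y r F R : ZFSet.{0}} (hA : A.IsTransitive) (h : quad y r F R ∈ A) :
    y ∈ A ∧ r ∈ A ∧ F ∈ A ∧ R ∈ A := by
  obtain ⟨h1, h2⟩ := pair_comp hA h
  obtain ⟨h3, h4⟩ := pair_comp hA h2
  obtain ⟨h5, h6⟩ := pair_comp hA h4
  exact ⟨h1, h3, h5, h6⟩

section tc

variable {C : ZFSet.{0} → Prop} [TC C]

theorem d_quad (q y r F R : ℕ) :
    Dfn C fun _ v => v q = quad (v y) (v r) (v F) (v R) :=
  ((((((((d_pair 0 (F+4) (R+4)).and (d_pair 2 (r+4) 0)).exB 0).exB 0)).and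
      (d_pair (q+2) (y+2) 0)).exB 0).exB q).congr fun A hA v hv => by
    show (∃ u ∈ v q, ∃ c ∈ u, (∃ u' ∈ c, ∃ d ∈ u', d = pair (v F) (v R) ∧ c = pair (v r) d) ∧
      v q = pair (v y) c) ↔ _
    constructor
    · rintro ⟨u, _, c, _, ⟨u', _, d, _, h1, h2⟩, h3⟩
      rw [h3, h2, h1]; rfl
    · intro h
      refine ⟨{v y, pair (v r) (pair (v F) (v R))}, ?_, pair (v r) (pair (v F) (v R)),
        ZFSet.mem_pair.2 (Or.inr rfl), ⟨{v r, pair (v F) (v R)}, ?_, pair (v F) (v R),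
        ZFSet.mem_pair.2 (Or.inr rfl), rfl, rfl⟩, h⟩
      · rw [h]; exact ZFSet.mem_pair.2 (Or.inr rfl)
      · exact ZFSet.mem_pair.2 (Or.inr rfl)

variable {P : ZFSet.{0} → (ℕ → ZFSet.{0}) → Prop}

theorem exQe (q : ℕ) (h : Dfn C P) : Dfn C fun A v => ∃ y r F R, v q = quad y r F R ∧
    P A (cons R (cons F (cons r (cons y v)))) :=
  (((d_quad (q+4) 3 2 1 0).and h).ex.ex.ex.ex).congr fun A hA v hv => by
    show (∃ y ∈ A, ∃ r ∈ A, ∃ F ∈ A, ∃ R ∈ A, v q = quad y r F R ∧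
      P A (cons R (cons F (cons r (cons y v))))) ↔ _
    constructor
    · rintro ⟨y, _, r, _, F, _, R, _, h⟩
      exact ⟨y, r, F, R, h⟩
    · rintro ⟨y, r, F, R, h1, h2⟩
      obtain ⟨hy, hr, hF, hR⟩ := quad_comp (TC.tr A hA) (h1 ▸ hv q)
      exact ⟨y, hy, r, hr, F, hF, R, hR, h1, h2⟩

theorem exQ (q : ℕ) (h : Dfn C P) : Dfn C fun A v => ∃ y r F R, quad y r F R ∈ v q ∧
    P A (cons R (cons F (cons r (cons y v)))) :=
  ((((d_quad 0 4 3 2 1).exB (q+4)).and h).ex.ex.ex.ex).congr fun A hA v hv => by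
    show (∃ y ∈ A, ∃ r ∈ A, ∃ F ∈ A, ∃ R ∈ A, (∃ z ∈ v q, z = quad y r F R) ∧
      P A (cons R (cons F (cons r (cons y v))))) ↔ _
    constructor
    · rintro ⟨y, _, r, _, F, _, R, _, ⟨z, hz, rfl⟩, h⟩
      exact ⟨y, r, F, R, hz, h⟩
    · rintro ⟨y, r, F, R, h1, h2⟩
      obtain ⟨hy, hr, hF, hR⟩ := quad_comp (TC.tr A hA) (TC.tr A hA _ (hv q) h1)
      exact ⟨y, hy, r, hr, F, hF, R, hR, ⟨_, h1, rfl⟩, h2⟩

theorem allQ (q : ℕ) (h : Dfn C P) : Dfn C fun A v => ∀ y r F R, quad y r F R ∈ v q →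
    P A (cons R (cons F (cons r (cons y v)))) :=
  (exQ q h.not).not.congr fun A _ v _ => by push Not; rfl

end tc

section bc

variable {C : ZFSet.{0} → Prop} [BC C] {P : ZFSet.{0} → (ℕ → ZFSet.{0}) → Prop}

theorem allO (h : Dfn C P) : Dfn C fun A v => ∀ c ∈ omega.{0}, P A (cons c v) :=
  (((d_om 0).imp h).all).congr fun A hA v hv => by
    show (∀ a ∈ A, a ∈ omega → P A (cons a v)) ↔ _
    have hB := BC.base A hA
    exact ⟨fun H c hc => H c (hB.tr _ hB.om hc) hc, fun H a _ ha => H a ha⟩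

theorem exO (h : Dfn C P) : Dfn C fun A v => ∃ c ∈ omega.{0}, P A (cons c v) :=
  (allO h.not).not.congr fun A _ v _ => by push Not; rfl

theorem d_upd0 (s' s a : ℕ) : Dfn C fun _ v => IsUpd (v s') (v s) ∅ (v a) :=
  ((d_emp 0).and (d_upd (s'+1) (s+1) 0 (a+1))).ex.congr fun A hA v hv => by
    show (∃ e ∈ A, e = ∅ ∧ IsUpd (v s') (v s) e (v a)) ↔ _
    have hB := BC.base A hA
    constructor
    · rintro ⟨e, _, rfl, h⟩; exact h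
    · intro h; exact ⟨∅, hB.tr _ hB.om (num_mem_omega 0), rfl, h⟩

theorem d_Dby (y F R c s x : ℕ) :
    Dfn C fun _ v => Dby (v y) (v F) (v R) (v c) (v s) (v x) :=
  ((d_sub x y).and (((Dfn.mem 0 (x+1)).iff
    (((d_upd0 0 (s+2) 1).and (d_app (c+2) 0 (R+2))).exB (F+1))).allB y)).congr
    fun _ _ _ _ => Iff.rfl

theorem d_DD (y F R x : ℕ) : Dfn C fun _ v => DD (v y) (v F) (v R) (v x) :=
  ((d_emp x).or (exO ((d_Dby (y+2) (F+2) (R+2) 1 0 (x+2)).exB (F+1)))).congr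
    fun _ _ _ _ => Iff.rfl

theorem d_LF (y r s s' : ℕ) : Dfn C fun _ v => LF (v y) (v r) (v s) (v s') :=
  -- a' = 0, a = 1, k = 2
  (exO ((((d_app 2 1 (s+3)).and ((d_app 2 0 (s'+3)).and ((d_app 1 0 (r+3)).and
    -- b = 0, j = 1, a' = 2, a = 3, k = 4
    (allO ((Dfn.mem 3 0).imp (((d_app 1 0 (s+5)).iff (d_app 1 0 (s'+5))).allB (y+4))))))).exB
      (y+2)).exB (y+1))).congr
    fun _ _ _ _ => Iff.rfl

theorem d_NL (y r F R x x' : ℕ) :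
    Dfn C fun _ v => NL (v y) (v r) (v F) (v R) (v x) (v x') :=
  -- s = 0, c = 1
  (exO (((d_Dby (y+2) (F+2) (R+2) 1 0 (x+2)).and
    -- s' = 0, c' = 1, s = 2, c = 3
    (allO (((d_Dby (y+4) (F+4) (R+4) 1 0 (x'+4)).imp
      ((Dfn.mem 3 1).or ((Dfn.eq 3 1).and (d_LF (y+4) (r+4) 2 0)))).allB (F+3)))).exB
      (F+1))).congr
    fun _ _ _ _ => Iff.rfl

end bc

theorem histdTask (h1 : T_FS) (h2 : T_RS) : T_HISTD := by
  have cl2 : Dfn Base (fun _ v => v 0 = RSet (v 3) ∧ v 1 = FSet (v 3)) :=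
    (h2.ren (fun n => match n with
      | 0 => 0
      | 1 => 3
      | _ => 1)).congr fun _ _ _ _ => Iff.rfl
  have cl3 : Dfn Base (fun _ v => ∀ x ∈ v 3, ∃ y' r' F' R', quad y' r' F' R' ∈ v 5 ∧ y' ∈ v 3 ∧
      DD y' F' R' x) :=
    ((exQ 6 ((Dfn.mem 3 8).and (d_DD 3 1 0 4))).allB 3).congr fun _ _ _ _ => Iff.rfl
  have cl4 : Dfn Base (fun _ v => ∀ y' r' F' R', quad y' r' F' R' ∈ v 5 → y' ∈ v 3 →
      (∃ e ∈ v 3, e = ∅) ∧ ∀ c ∈ omega.{0}, ∀ s ∈ F', ∃ x ∈ v 3, Dby y' F' R' c s x) :=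
    (allQ 5 ((Dfn.mem 3 7).imp (((d_emp 0).exB 7).and
      (allO (((d_Dby 6 4 3 2 1 0).exB 9).allB 2))))).congr fun _ _ _ _ => Iff.rfl
  have cl5 : Dfn Base (fun _ v => ∀ p ∈ v 2, ∃ x ∈ v 3, ∃ x' ∈ v 3, p = pair x x') :=
    ((((d_pair 2 1 0).exB 5).exB 4).allB 2).congr fun _ _ _ _ => Iff.rfl
  have cl6 : Dfn Base (fun _ v => ∀ x ∈ v 3, ∀ x' ∈ v 3, (pair x x' ∈ v 2 ↔
      ∃ y' r' F' R', quad y' r' F' R' ∈ v 5 ∧ y' ∈ v 3 ∧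
      ((DD y' F' R' x ∧ ¬ DD y' F' R' x') ∨
       (DD y' F' R' x ∧ DD y' F' R' x' ∧ x ∉ y' ∧ x' ∉ y' ∧ NL y' r' F' R' x x')))) :=
    ((((d_app 1 0 4).iff (exQ 7 ((Dfn.mem 3 9).and (((d_DD 3 1 0 5).and (d_DD 3 1 0 4).not).or
      ((d_DD 3 1 0 5).and ((d_DD 3 1 0 4).and ((Dfn.mem 5 3).not.and ((Dfn.mem 4 3).not.and
        (d_NL 3 2 1 0 5 4))))))))).allB 4).allB 3).congr fun _ _ _ _ => Iff.rfl
  refine ((exQe 0 (cl2.and (cl3.and (cl4.and (cl5.and cl6))))).allB 0).congr ?_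
  intro A hA v hv
  show (∀ q ∈ v 0, ∃ y r F R, q = quad y r F R ∧ (R = RSet y ∧ F = FSet y) ∧
    (∀ x ∈ y, ∃ y' r' F' R', quad y' r' F' R' ∈ v 0 ∧ y' ∈ y ∧ DD y' F' R' x) ∧
    (∀ y' r' F' R', quad y' r' F' R' ∈ v 0 → y' ∈ y →
      (∃ e ∈ y, e = ∅) ∧ ∀ c ∈ omega.{0}, ∀ s ∈ F', ∃ x ∈ y, Dby y' F' R' c s x) ∧
    (∀ p ∈ r, ∃ x ∈ y, ∃ x' ∈ y, p = pair x x') ∧
    (∀ x ∈ y, ∀ x' ∈ y, (pair x x' ∈ r ↔ ∃ y' r' F' R', quad y' r' F' R' ∈ v 0 ∧ y' ∈ y ∧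
      ((DD y' F' R' x ∧ ¬ DD y' F' R' x') ∨
       (DD y' F' R' x ∧ DD y' F' R' x' ∧ x ∉ y' ∧ x' ∉ y' ∧ NL y' r' F' R' x x'))))) ↔ _
  unfold IsHist
  simp only [exists_eq_right, and_assoc]
  refine forall₂_congr fun q _ => ?_
  refine exists_congr fun y => exists_congr fun r => exists_congr fun F => exists_congr fun R => ?_
  tauto

end Pool.Agent.W352.VL
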