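import Pool.Agent.W886.VL.Stm
import Pool.Agent.W352.VL.HistD

set_option autoImplicit false

namespace Pool.Agent.W352.VL

open Pool.Agent.W886.VL
open SOCat (Fml cons)
open ZFSet (pair omega)

theorem rel_unfold {α : Ordinal.{0}} {x x' : ZFSet.{0}} : rel α x x' ↔ x ∈ L α ∧ x' ∈ L α ∧
    ∃ β < α, (x ∈ Def (L β) ∧ x' ∉ Def (L β)) ∨
      (x ∈ Def (L β) ∧ x' ∈ Def (L β) ∧ x ∉ L β ∧ x' ∉ L β ∧ newLt (L β) (rel β) x x') := by
  rw [rel]
  constructor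
  · rintro ⟨h1, h2, ⟨β, hβ⟩, h⟩
    exact ⟨h1, h2, β, hβ, h⟩
  · rintro ⟨h1, h2, β, hβ, h⟩
    exact ⟨h1, h2, ⟨β, hβ⟩, h⟩

theorem pair_mem_rZ {α : Ordinal.{0}} {x x' : ZFSet.{0}} : pair x x' ∈ rZ α ↔ rel α x x' := by
  unfold rZ
  rw [ZFSet.mem_sep]
  constructor
  · rintro ⟨_, z, z', h1, h2⟩
    rw [ZFSet.pair_inj] at h2
    rw [h2.1, h2.2]; exact h1
  · intro h
    have h' := rel_unfold.1 h
    exact ⟨ZFSet.pair_mem_prod.2 ⟨h'.1, h'.2.1⟩, x, x', h, rfl⟩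

theorem mem_rZ {α : Ordinal.{0}} {p : ZFSet.{0}} (hp : p ∈ rZ α) :
    ∃ x x', rel α x x' ∧ p = pair x x' := by
  unfold rZ at hp
  rw [ZFSet.mem_sep] at hp
  exact hp.2

/-- definability by a code -/
theorem Dby_code {y x : ZFSet.{0}} {φ : NF} {t : ℕ → ZFSet.{0}} (ht : FSup y t) :
    Dby y (FSet y) (RSet y) (num φ.code) (fnZ t) x ↔ DefBy y φ t x := by
  unfold Dby DefBy
  refine and_congr_right fun _ => forall₂_congr fun a ha => iff_congr Iff.rfl ?_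
  constructor
  · rintro ⟨s', hs', h1, h2⟩
    obtain ⟨t', ht', rfl⟩ := mem_FSet.1 hs'
    have h3 : IsUpd (fnZ t') (fnZ t) (num 0) a := h1
    rw [isUpd_iff] at h3
    rw [← h3]
    exact (pair_mem_RSet.1 h2).2
  · intro h
    exact ⟨fnZ (Function.update t 0 a), fnZ_mem_FSet.2 (ht.update 0 ha),
      (isUpd_iff (n := 0)).2 rfl, pair_mem_RSet.2 ⟨ht.update 0 ha, h⟩⟩

theorem Dby_noncode {y x c s : ZFSet.{0}} (hc : ∀ φ : NF, c ≠ num φ.code)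
    (h : Dby y (FSet y) (RSet y) c s x) : x = ∅ := by
  rw [ZFSet.eq_empty]
  intro a ha
  have h1 := (h.2 a (h.1 ha)).1 ha
  obtain ⟨s', _, _, h2⟩ := h1
  obtain ⟨φ, t, _, _, h3⟩ := mem_RSet.1 h2
  rw [ZFSet.pair_inj] at h3
  exact hc φ h3.1

theorem DD_iff (h1 : T_DEF) (β : Ordinal.{0}) (x : ZFSet.{0}) :
    DD (L β) (FSet (L β)) (RSet (L β)) x ↔ x ∈ Def (L β) := by
  rcases eq_or_ne β 0 with h0 | h0
  · subst h0
    rw [L_zero, Def_empty]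
    constructor
    · rintro (h | ⟨c, _, s, hs, _⟩)
      · exact h
      · obtain ⟨t, ht, _⟩ := mem_FSet.1 hs
        exact absurd ht.empty_mem (ZFSet.notMem_empty _)
    · exact Or.inl
  · have he : ∅ ∈ L β := empty_mem_L (pos_iff_ne_zero.2 h0)
    rw [h1 (L β) (L_trans β) he x]
    constructor
    · rintro (h | ⟨c, hc, s, hs, h⟩)
      · rw [← h1 (L β) (L_trans β) he x, h]
        exact empty_mem_Def _
      · obtain ⟨t, ht, rfl⟩ := mem_FSet.1 hs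
        by_cases hcode : ∃ φ : NF, c = num φ.code
        · obtain ⟨φ, rfl⟩ := hcode
          exact ⟨φ, t, ht, (Dby_code ht).1 h⟩
        · push Not at hcode
          rw [← h1 (L β) (L_trans β) he x, Dby_noncode hcode h]
          exact empty_mem_Def _
    · rintro ⟨φ, t, ht, h⟩
      exact Or.inr ⟨num φ.code, num_mem_omega _, fnZ t, fnZ_mem_FSet.2 ht, (Dby_code ht).2 h⟩

theorem LF_iff {β : Ordinal.{0}} {s s' : ℕ → ZFSet.{0}} (hs : FSup (L β) s)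
    (hs' : FSup (L β) s') : LF (L β) (rZ β) (fnZ s) (fnZ s') ↔ ltF (rel β) s s' := by
  unfold LF ltF
  constructor
  · rintro ⟨k, hk, a, _, a', _, h1, h2, h3, h4⟩
    obtain ⟨k, rfl⟩ := mem_omega.1 hk
    rw [pair_mem_fnZ] at h1 h2
    subst h1 h2
    refine ⟨k, pair_mem_rZ.1 h3, fun j hj => ?_⟩
    have := (h4 (num j) (num_mem_omega j) (num_mem_num.2 hj) (s j) (hs.1 j)).1 (pair_mem_fnZ.2 rfl)
    exact pair_mem_fnZ.1 this
  · rintro ⟨k, h1, h2⟩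
    refine ⟨num k, num_mem_omega k, s k, hs.1 k, s' k, hs'.1 k, pair_mem_fnZ.2 rfl,
      pair_mem_fnZ.2 rfl, pair_mem_rZ.2 h1, ?_⟩
    intro j hj hkj b _
    obtain ⟨j, rfl⟩ := mem_omega.1 hj
    rw [pair_mem_fnZ, pair_mem_fnZ, h2 j (num_mem_num.1 hkj)]

theorem NL_iff {β : Ordinal.{0}} {x x' : ZFSet.{0}} (hx : x ∉ L β) (hx' : x' ∉ L β) :
    NL (L β) (rZ β) (FSet (L β)) (RSet (L β)) x x' ↔ newLt (L β) (rel β) x x' := by
  unfold NL newLt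
  constructor
  · rintro ⟨c, hc, s, hs, h1, h2⟩
    obtain ⟨t, ht, rfl⟩ := mem_FSet.1 hs
    have he := ht.empty_mem
    by_cases hcode : ∃ φ : NF, c = num φ.code
    · obtain ⟨φ, rfl⟩ := hcode
      refine ⟨φ, t, ht, (Dby_code ht).1 h1, ?_⟩
      intro φ' t' ht' h3
      rcases h2 (num φ'.code) (num_mem_omega _) (fnZ t') (fnZ_mem_FSet.2 ht') ((Dby_code ht').2 h3)
        with h4 | ⟨h4, h5⟩
      · exact Or.inl (num_mem_num.1 h4)
      · exact Or.inr ⟨num_inj.1 h4, (LF_iff ht ht').1 h5⟩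
    · push Not at hcode
      rw [Dby_noncode hcode h1] at hx
      exact absurd he hx
  · rintro ⟨φ, t, ht, h1, h2⟩
    have he := ht.empty_mem
    refine ⟨num φ.code, num_mem_omega _, fnZ t, fnZ_mem_FSet.2 ht, (Dby_code ht).2 h1, ?_⟩
    intro c' hc' s' hs' h3
    obtain ⟨t', ht', rfl⟩ := mem_FSet.1 hs'
    by_cases hcode : ∃ φ : NF, c' = num φ.code
    · obtain ⟨φ', rfl⟩ := hcode
      rcases h2 φ' t' ht' ((Dby_code ht').1 h3) with h4 | ⟨h4, h5⟩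
      · exact Or.inl (num_mem_num.2 h4)
      · exact Or.inr ⟨num_inj.2 h4, (LF_iff ht ht').2 h5⟩
    · push Not at hcode
      rw [Dby_noncode hcode h3] at hx'
      exact absurd he hx'

theorem lev_eq (β : Ordinal.{0}) : lev β = quad (L β) (rZ β) (FSet (L β)) (RSet (L β)) := rfl

theorem quad_inj {y r F R y' r' F' R' : ZFSet.{0}} :
    quad y r F R = quad y' r' F' R' ↔ y = y' ∧ r = r' ∧ F = F' ∧ R = R' := by
  unfold quad
  rw [ZFSet.pair_inj, ZFSet.pair_inj, ZFSet.pair_inj]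

theorem DefBy_unique {y x x' : ZFSet.{0}} {φ : NF} {t : ℕ → ZFSet.{0}} (h : DefBy y φ t x)
    (h' : DefBy y φ t x') : x = x' := by
  ext a
  constructor
  · intro ha
    exact (h'.2 a (h.1 ha)).2 ((h.2 a (h.1 ha)).1 ha)
  · intro ha
    exact (h.2 a (h'.1 ha)).2 ((h'.2 a (h'.1 ha)).1 ha)

/-- the clause for the order, in terms of the levels -/
theorem ord_clause (h1 : T_DEF) (h : ZFSet.{0}) (β : Ordinal.{0})
    (hh : ∀ y' r' F' R', quad y' r' F' R' ∈ h ∧ y' ∈ L β ↔ ∃ δ < β, quad y' r' F' R' = lev δ)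
    (x x' : ZFSet.{0}) (hx : x ∈ L β) (hx' : x' ∈ L β) :
    pair x x' ∈ rZ β ↔ ∃ y' r' F' R', quad y' r' F' R' ∈ h ∧ y' ∈ L β ∧
      ((DD y' F' R' x ∧ ¬ DD y' F' R' x') ∨
       (DD y' F' R' x ∧ DD y' F' R' x' ∧ x ∉ y' ∧ x' ∉ y' ∧ NL y' r' F' R' x x')) := by
  rw [pair_mem_rZ, rel_unfold]
  constructor
  · rintro ⟨_, _, δ, hδ, h2⟩
    have h3 := (hh (L δ) (rZ δ) (FSet (L δ)) (RSet (L δ))).2 ⟨δ, hδ, rfl⟩
    refine ⟨L δ, rZ δ, FSet (L δ), RSet (L δ), h3.1, h3.2, ?_⟩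
    rw [DD_iff h1, DD_iff h1]
    rcases h2 with h2 | ⟨h2, h4, h5, h6, h7⟩
    · exact Or.inl h2
    · exact Or.inr ⟨h2, h4, h5, h6, (NL_iff h5 h6).2 h7⟩
  · rintro ⟨y', r', F', R', hq, hy, h2⟩
    obtain ⟨δ, hδ, h3⟩ := (hh y' r' F' R').1 ⟨hq, hy⟩
    rw [lev_eq, quad_inj] at h3
    obtain ⟨rfl, rfl, rfl, rfl⟩ := h3
    refine ⟨hx, hx', δ, hδ, ?_⟩
    rw [DD_iff h1, DD_iff h1] at h2
    rcases h2 with h2 | ⟨h2, h4, h5, h6, h7⟩
    · exact Or.inl h2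
    · exact Or.inr ⟨h2, h4, h5, h6, (NL_iff h5 h6).1 h7⟩

theorem le_rank_L (β : Ordinal.{0}) : β ≤ (L β).rank := by
  induction β using WellFoundedLT.induction with
  | _ β ih =>
  by_contra hc
  have h1 := not_le.1 hc
  have h2 := ih _ h1
  have h3 : (L (L β).rank).rank < (L β).rank := ZFSet.rank_lt_of_mem (L_mem_L.2 h1)
  exact absurd h2 (not_le.2 h3)

theorem isHist_hset (h1 : T_DEF) (γ : Ordinal.{0}) : IsHist (hset γ) := by
  intro q hq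
  obtain ⟨β, hβ, rfl⟩ := mem_hset.1 hq
  refine ⟨L β, rZ β, FSet (L β), RSet (L β), rfl, rfl, rfl, ?_, ?_, ?_, ?_⟩
  · intro x hx
    obtain ⟨δ, hδ, h⟩ := mem_L.1 hx
    exact ⟨L δ, rZ δ, FSet (L δ), RSet (L δ), mem_hset.2 ⟨δ, hδ.trans hβ, rfl⟩, L_mem_L.2 hδ,
      (DD_iff h1 δ x).2 h⟩
  · intro y' r' F' R' hq' hy'
    obtain ⟨δ, hδ, h⟩ := mem_hset.1 hq'
    rw [lev_eq, quad_inj] at h
    obtain ⟨rfl, rfl, rfl, rfl⟩ := h
    have hδβ := L_mem_L.1 hy'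
    refine ⟨empty_mem_L (pos_of_gt hδβ), ?_⟩
    intro c hc s hs
    let x : ZFSet.{0} := ZFSet.sep (fun a => ∃ s' ∈ FSet (L δ), IsUpd s' s ∅ a ∧
      pair c s' ∈ RSet (L δ)) (L δ)
    have hx : Dby (L δ) (FSet (L δ)) (RSet (L δ)) c s x := by
      refine ⟨fun a ha => (ZFSet.mem_sep.1 ha).1, fun a ha => ?_⟩
      rw [ZFSet.mem_sep]
      exact ⟨fun h => h.2, fun h => ⟨ha, h⟩⟩
    refine ⟨x, ?_, hx⟩
    have h2 : x ∈ Def (L δ) := by
      rw [← DD_iff h1]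
      exact Or.inr ⟨c, hc, s, hs, hx⟩
    exact mem_L.2 ⟨δ, hδβ, h2⟩
  · intro p hp
    obtain ⟨x, x', h, rfl⟩ := mem_rZ hp
    have h' := rel_unfold.1 h
    exact ⟨x, h'.1, x', h'.2.1, rfl⟩
  · intro x hx x' hx'
    refine ord_clause h1 (hset γ) β ?_ x x' hx hx'
    intro y' r' F' R'
    constructor
    · rintro ⟨hq', hy'⟩
      obtain ⟨δ, hδ, h⟩ := mem_hset.1 hq'
      have h2 := h
      rw [lev_eq, quad_inj] at h2
      rw [h2.1] at hy'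
      exact ⟨δ, L_mem_L.1 hy', h⟩
    · rintro ⟨δ, hδ, h⟩
      refine ⟨mem_hset.2 ⟨δ, hδ.trans hβ, h⟩, ?_⟩
      rw [lev_eq, quad_inj] at h
      rw [h.1]; exact L_mem_L.2 hδ

theorem hist_level (h1 : T_DEF) {h : ZFSet.{0}} (hh : IsHist h) : ∀ y r F R,
    quad y r F R ∈ h → ∃ β : Ordinal.{0}, quad y r F R = lev β ∧ ∀ δ < β, lev δ ∈ h := by
  intro y
  induction y using ZFSet.inductionOn with
  | _ y ih =>
  intro r F R hq
  obtain ⟨y₁, r₁, F₁, R₁, he, hF, hR, c3, c4, c5, c6⟩ := hh _ hq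
  rw [quad_inj] at he
  obtain ⟨rfl, rfl, rfl, rfl⟩ := he
  -- the levels below
  have key : ∀ y' r' F' R', quad y' r' F' R' ∈ h → y' ∈ y → ∃ β' : Ordinal.{0},
      quad y' r' F' R' = lev β' ∧ ∀ δ < β', lev δ ∈ h :=
    fun y' r' F' R' h2 h3 => ih y' h3 r' F' R' h2
  have hDef : ∀ β' : Ordinal.{0}, lev β' ∈ h → L β' ∈ y → Def (L β') ⊆ y := by
    intro β' hl hy' x hx
    obtain ⟨he, h5⟩ := c4 (L β') (rZ β') (FSet (L β')) (RSet (L β')) hl hy'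
    rw [← DD_iff h1] at hx
    rcases hx with hx | ⟨c, hc, s, hs, hd⟩
    · rw [hx]; exact he
    · obtain ⟨x', hx', hd'⟩ := h5 c hc s hs
      have : x = x' := by
        ext a
        constructor
        · intro ha
          exact (hd'.2 a (hd.1 ha)).2 ((hd.2 a (hd.1 ha)).1 ha)
        · intro ha
          exact (hd.2 a (hd'.1 ha)).2 ((hd'.2 a (hd'.1 ha)).1 ha)
      rw [this]; exact hx'
  have hdown : ∀ β' : Ordinal.{0}, lev β' ∈ h → L β' ∈ y → ∀ δ < β', lev δ ∈ h ∧ L δ ∈ y := by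
    intro β' hl hy' δ hδ
    obtain ⟨β'', h2, h3⟩ := key _ _ _ _ hl hy'
    have h4 : β' = β'' := lev_inj h2
    subst h4
    refine ⟨h3 δ hδ, hDef β' hl hy' (sub_Def (L_trans β') (L_mem_L.2 hδ))⟩
  -- the least ordinal outside
  have hex : ∃ β : Ordinal.{0}, ¬ (lev β ∈ h ∧ L β ∈ y) := by
    refine ⟨y.rank, fun hc => ?_⟩
    exact absurd (le_rank_L y.rank) (not_le.2 (ZFSet.rank_lt_of_mem hc.2))
  let β : Ordinal.{0} := WellFounded.min Ordinal.lt_wf {β | ¬ (lev β ∈ h ∧ L β ∈ y)} hex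
  have hβ1 : ¬ (lev β ∈ h ∧ L β ∈ y) := WellFounded.min_mem Ordinal.lt_wf _ hex
  have hβ2 : ∀ δ < β, lev δ ∈ h ∧ L δ ∈ y := by
    intro δ hδ
    by_contra hc
    exact WellFounded.not_lt_min Ordinal.lt_wf {β | ¬ (lev β ∈ h ∧ L β ∈ y)} hc hδ
  have hβ3 : ∀ δ, lev δ ∈ h → L δ ∈ y → δ < β := by
    intro δ h2 h3
    by_contra hc
    rcases (not_lt.1 hc).lt_or_eq with h4 | h4
    · exact hβ1 (hdown δ h2 h3 β h4)
    · exact hβ1 (h4 ▸ ⟨h2, h3⟩)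
  have hy : y = L β := by
    ext x
    constructor
    · intro hx
      obtain ⟨y', r', F', R', h2, h3, h4⟩ := c3 x hx
      obtain ⟨δ, h5, _⟩ := key y' r' F' R' h2 h3
      have h2' := h2
      rw [h5] at h2'
      rw [lev_eq, quad_inj] at h5
      obtain ⟨rfl, rfl, rfl, rfl⟩ := h5
      rw [DD_iff h1] at h4
      exact mem_L.2 ⟨δ, hβ3 δ h2' h3, h4⟩
    · intro hx
      obtain ⟨δ, hδ, h2⟩ := mem_L.1 hx
      obtain ⟨h3, h4⟩ := hβ2 δ hδ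
      exact hDef δ h3 h4 h2
  refine ⟨β, ?_, fun δ hδ => (hβ2 δ hδ).1⟩
  rw [lev_eq, quad_inj]
  refine ⟨hy, ?_, hy ▸ hF, hy ▸ hR⟩
  have hcl := ord_clause h1 h β (by
    intro y' r' F' R'
    constructor
    · rintro ⟨h2, h3⟩
      rw [← hy] at h3
      obtain ⟨δ, h5, _⟩ := key y' r' F' R' h2 h3
      have h2' := h2
      rw [h5] at h2'
      have h6 := h5
      rw [lev_eq, quad_inj] at h6
      exact ⟨δ, hβ3 δ h2' (h6.1 ▸ h3), h5⟩
    · rintro ⟨δ, hδ, h5⟩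
      obtain ⟨h3, h4⟩ := hβ2 δ hδ
      refine ⟨h5 ▸ h3, ?_⟩
      rw [lev_eq, quad_inj] at h5
      rw [h5.1]; exact L_mem_L.2 hδ)
  rw [← hy] at hcl
  ext p
  constructor
  · intro hp
    obtain ⟨x, hx, x', hx', rfl⟩ := c5 p hp
    exact (hcl x x' hx hx').2 ((c6 x hx x' hx').1 hp)
  · intro hp
    obtain ⟨x, x', hr, rfl⟩ := mem_rZ hp
    have h' := rel_unfold.1 hr
    rw [← hy] at h'
    exact (c6 x h'.1 x' h'.2.1).2 ((hcl x x' h'.1 h'.2.1).1 hp)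

theorem histeTask (h1 : T_DEF) : T_HISTE := by
  intro h
  constructor
  · intro hh
    have hq : ∀ q ∈ h, ∃ β : Ordinal.{0}, q = lev β ∧ ∀ δ < β, lev δ ∈ h := by
      intro q hq
      obtain ⟨y, r, F, R, he, _⟩ := hh q hq
      subst he
      exact hist_level h1 hh y r F R hq
    have hex : ∃ γ : Ordinal.{0}, lev γ ∉ h := by
      refine ⟨h.rank, fun hc => ?_⟩
      have h2 : (L h.rank).rank < (lev h.rank).rank := by
        have e1 : L h.rank ∈ ({L h.rank} : ZFSet.{0}) := ZFSet.mem_singleton.2 rfl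
        have e2 : ({L h.rank} : ZFSet.{0}) ∈ lev h.rank := ZFSet.mem_pair.2 (Or.inl rfl)
        exact (ZFSet.rank_lt_of_mem e1).trans (ZFSet.rank_lt_of_mem e2)
      have h3 := ZFSet.rank_lt_of_mem hc
      exact absurd (le_rank_L h.rank) (not_le.2 (h2.trans h3))
    let γ : Ordinal.{0} := WellFounded.min Ordinal.lt_wf {γ | lev γ ∉ h} hex
    have hγ1 : lev γ ∉ h := WellFounded.min_mem Ordinal.lt_wf _ hex
    have hγ2 : ∀ δ < γ, lev δ ∈ h := by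
      intro δ hδ
      by_contra hc
      exact WellFounded.not_lt_min Ordinal.lt_wf {γ | lev γ ∉ h} hc hδ
    refine ⟨γ, ?_⟩
    ext q
    rw [mem_hset]
    constructor
    · intro hqh
      obtain ⟨β, rfl, h2⟩ := hq q hqh
      refine ⟨β, ?_, rfl⟩
      by_contra hc
      rcases (not_lt.1 hc).lt_or_eq with h4 | h4
      · exact hγ1 (h2 γ h4)
      · exact hγ1 (h4 ▸ hqh)
    · rintro ⟨β, hβ, rfl⟩
      exact hγ2 β hβ
  · rintro ⟨γ, rfl⟩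
    exact isHist_hset h1 γ

end Pool.Agent.W352.VL
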