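import Pool.Agent.W886.VL.Stm
import Pool.Agent.W352.VL.HistE

set_option autoImplicit false

namespace Pool.Agent.W352.VL

open Pool.Agent.W886.VL
open SOCat (Fml cons)
open ZFSet (pair omega)

/-- `v i = v j ∪ v k` -/
theorem d_union {C : ZFSet.{0} → Prop} [TC C] (i j k : ℕ) : Dfn C fun _ v => v i = v j ∪ v k :=
  ((d_sub j i).and ((d_sub k i).and (((Dfn.mem 0 (j+1)).or (Dfn.mem 0 (k+1))).allB i))).congr
    fun A hA v hv => by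
    show (v j ⊆ v i ∧ v k ⊆ v i ∧ ∀ z ∈ v i, z ∈ v j ∨ z ∈ v k) ↔ _
    constructor
    · rintro ⟨h1, h2, h3⟩
      ext z
      rw [ZFSet.mem_union]
      exact ⟨h3 z, fun h => h.elim (fun h => h1 h) (fun h => h2 h)⟩
    · intro h
      rw [h]
      exact ⟨fun z hz => ZFSet.mem_union.2 (Or.inl hz), fun z hz => ZFSet.mem_union.2 (Or.inr hz),
        fun z hz => ZFSet.mem_union.1 hz⟩

theorem d_Base : Dfn Trs (fun A _ => Base A) :=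
  ((d_eqom 0).ex.and ((d_up 0 2 1).ex.all.all.and (d_union 0 2 1).ex.all.all)).congr
    fun A hA v hv => by
    show ((∃ w ∈ A, w = omega) ∧ (∀ a ∈ A, ∀ b ∈ A, ∃ c ∈ A, c = {a, b}) ∧
      (∀ a ∈ A, ∀ b ∈ A, ∃ c ∈ A, c = a ∪ b)) ↔ _
    constructor
    · rintro ⟨⟨w, hw, rfl⟩, h2, h3⟩
      refine ⟨hA, hw, ?_, ?_⟩
      · intro a ha b hb
        obtain ⟨c, hc, rfl⟩ := h2 a ha b hb
        exact hc
      · intro a ha b hb
        obtain ⟨c, hc, rfl⟩ := h3 a ha b hb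
        exact hc
    · intro h
      exact ⟨⟨_, h.om, rfl⟩, fun a ha b hb => ⟨_, h.pr a ha b hb, rfl⟩,
        fun a ha b hb => ⟨_, h.un a ha b hb, rfl⟩⟩

theorem dfn_base {P : ZFSet.{0} → (ℕ → ZFSet.{0}) → Prop} (h : Dfn Base P) :
    Dfn Trs (fun A v => Base A ∧ P A v) := by
  obtain ⟨φ, hφ⟩ := d_Base
  obtain ⟨ψ, hψ⟩ := h
  refine ⟨.and φ ψ, fun A hA v hv => ?_⟩
  show (Sat A φ v ∧ Sat A ψ v) ↔ _
  rw [hφ A hA v hv]
  exact and_congr_right fun hB => hψ A hB v hv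

theorem goodTask (h1 : T_HISTD) (h2 : T_HISTE) : T_GOOD := by
  have h3 : Dfn Base (fun A _ => ∀ x ∈ A, ∃ h ∈ A, IsHist h ∧ ∃ y r F R, quad y r F R ∈ h ∧ x ∈ y) :=
    (Dfn.and h1 (exQ 0 (Dfn.mem 5 3))).ex.all.congr fun _ _ _ _ => Iff.rfl
  refine (dfn_base h3).congr fun A hA v hv => ?_
  constructor
  · rintro ⟨hB, h⟩
    refine ⟨hB, fun x hx => ?_⟩
    obtain ⟨k, hk, hk2, y, r, F, R, h4, h5⟩ := h x hx
    obtain ⟨γ, rfl⟩ := (h2 k).1 hk2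
    obtain ⟨β, hβ, h6⟩ := mem_hset.1 h4
    rw [lev_eq, quad_inj] at h6
    exact ⟨γ, β, hβ, hk, h6.1 ▸ h5⟩
  · intro hG
    refine ⟨hG.toBase, fun x hx => ?_⟩
    obtain ⟨γ, β, hβ, h4, h5⟩ := hG.hist x hx
    exact ⟨hset γ, h4, (h2 _).2 ⟨γ, rfl⟩, L β, rZ β, FSet (L β), RSet (L β),
      mem_hset.2 ⟨β, hβ, rfl⟩, h5⟩

end Pool.Agent.W352.VL
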