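import Pool.Agent.W886.VL.Stm

set_option autoImplicit false

namespace Pool.Agent.W352.VL

open Pool.Agent.W886.VL
open SOCat (Fml cons)
open ZFSet (pair omega)

/-- `v i = (num k, v j)` -/
theorem d_pn {C : ZFSet.{0} → Prop} [TC C] (i k j : ℕ) :
    Dfn C fun _ v => v i = pair (num k) (v j) :=
  (((((d_num k 0).and (d_pair (i + 2) 0 (j + 2))).exB 0)).exB i).congr fun A hA v hv => by
    show (∃ s ∈ v i, ∃ a ∈ s, a = num k ∧ v i = pair a (v j)) ↔ _
    constructor
    · rintro ⟨s, _, a, _, rfl, h⟩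
      exact h
    · intro h
      refine ⟨{num k}, ?_, num k, ZFSet.mem_singleton.2 rfl, rfl, h⟩
      rw [h]
      exact ZFSet.mem_pair.2 (Or.inl rfl)

theorem upd_eq (v : ℕ → ZFSet.{0}) (k : ℕ) (a : ZFSet.{0}) :
    (fun n => cons a v (if n = k then 0 else n + 1)) = Function.update v k a := by
  funext n
  by_cases h : n = k
  · subst h; simp [cons]
  · rw [Function.update_of_ne h]; simp [h, cons]

theorem eq_tupZ (v : ℕ → ZFSet.{0}) (xs : List ℕ) (p : ZFSet.{0}) :
    p = tupZ (xs.map v) ↔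
      (∀ q ∈ p, ∃ k : Fin xs.length, q = pair (num k.1) (v (xs.get k))) ∧
      ∀ k : Fin xs.length, ∃ q ∈ p, q = pair (num k.1) (v (xs.get k)) := by
  have key : ∀ q, q ∈ tupZ (xs.map v) ↔
      ∃ k : Fin xs.length, q = pair (num k.1) (v (xs.get k)) := by
    intro q
    rw [mem_tupZ]
    constructor
    · rintro ⟨k, hk⟩
      refine ⟨⟨k.1, by simpa using k.2⟩, ?_⟩
      rw [hk]; simp
    · rintro ⟨k, hk⟩
      refine ⟨⟨k.1, by simp⟩, ?_⟩
      rw [hk]; simp
  constructor
  · rintro rfl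
    exact ⟨fun q hq => (key q).1 hq, fun k => ⟨_, (key _).2 ⟨k, rfl⟩, rfl⟩⟩
  · rintro ⟨h1, h2⟩
    ext q
    rw [key]
    constructor
    · exact h1 q
    · rintro ⟨k, rfl⟩
      obtain ⟨q, hq, rfl⟩ := h2 k
      exact hq

theorem nsTask : T_NS := by
  intro φ
  induction φ with
  | eq i j => exact Dfn.eq i j
  | mem i j => exact Dfn.mem i j
  | tup j xs =>
    have h := (((Dfn.exFin (C := Trs) (n := xs.length)
      (fun k => d_pn 0 k.1 (xs.get k + 2))).allB 0).and
      (Dfn.allFin (C := Trs) (n := xs.length)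
        (fun k => (d_pn 0 k.1 (xs.get k + 2)).exB 0))).exB j
    refine h.congr fun A hA v hv => ?_
    show (∃ p ∈ v j, (∀ q ∈ p, ∃ k : Fin xs.length, q = pair (num k.1) (v (xs.get k))) ∧
      ∀ k : Fin xs.length, ∃ q ∈ p, q = pair (num k.1) (v (xs.get k))) ↔ tupZ (xs.map v) ∈ v j
    constructor
    · rintro ⟨p, hp, h⟩
      rw [← eq_tupZ] at h
      exact h ▸ hp
    · intro h
      exact ⟨_, h, (eq_tupZ v xs _).1 rfl⟩
  | neg φ ih => exact ih.not
  | and φ ψ ih1 ih2 => exact ih1.and ih2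
  | allD k φ ih =>
    refine ((Dfn.mem 0 1).imp (ih.ren (fun n => if n = k then 0 else n + 1))).all.congr
      fun A hA v hv => ?_
    show (∀ a ∈ A, a ∈ v 0 → NSat A φ _) ↔ (∀ a ∈ A, a ∈ v 0 → NSat A φ (Function.update v k a))
    refine forall₂_congr fun a ha => imp_congr_right fun _ => ?_
    rw [upd_eq]
  | all k φ ih =>
    refine (ih.ren (fun n => if n = k then 0 else n + 1)).all.congr fun A hA v hv => ?_
    show (∀ a ∈ A, NSat A φ _) ↔ (∀ a ∈ A, NSat A φ (Function.update v k a))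
    refine forall₂_congr fun a ha => ?_
    rw [upd_eq]

end Pool.Agent.W352.VL
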