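import Pool.Agent.W886.VL.Stm
import Pool.Agent.W352.VL.HistD
import Pool.Agent.W352.VL.Code

set_option autoImplicit false

namespace Pool.Agent.W352.VL

open Pool.Agent.W886.VL
open SOCat (Fml cons)
open ZFSet (pair omega)

/-! ### tags and elements of lists -/

/-- `c = ⟨a, ⟨i, j⟩⟩` -/
def tagZ (a : ℕ) (c i j : ZFSet.{0}) : Prop :=
  ∃ i' j', i = num i' ∧ j = num j' ∧ c = num (Nat.pair a (Nat.pair i' j'))

/-- `c = ⟨a, m⟩` -/
def tagY (a : ℕ) (c m : ZFSet.{0}) : Prop := ∃ m', m = num m' ∧ c = num (Nat.pair a m')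

/-- `x` is the `k`-th element of the list coded by `e` -/
def elemN (e k x : ℕ) : Prop := (Denumerable.ofNat (List ℕ) e)[k]? = some x

def elemZ (e k x : ZFSet.{0}) : Prop :=
  ∃ e' k' x', e = num e' ∧ k = num k' ∧ x = num x' ∧ elemN e' k' x'

def codeZ (c : ZFSet.{0}) : Prop := ∃ n, c = num n ∧ IsCode n

theorem d_pairN (h1 : T_PAIR) (i j k : ℕ) : Dfn Base (fun _ v =>
    ∃ a b, v i = num a ∧ v j = num b ∧ v k = num (Nat.pair a b)) :=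
  (Dfn.ren (fun n => match n with
    | 0 => i
    | 1 => j
    | _ => k) h1).congr fun _ _ _ _ => Iff.rfl

theorem d_tagY (h1 : T_PAIR) (a : ℕ) (c m : ℕ) : Dfn Base (fun _ v => tagY a (v c) (v m)) :=
  ((d_num a 0).and (d_pairN h1 0 (m+1) (c+1))).exOm.congr fun A hA v hv => by
    show (∃ w : ℕ, num w = num a ∧ ∃ a' b', num w = num a' ∧ v m = num b' ∧
      v c = num (Nat.pair a' b')) ↔ _
    constructor
    · rintro ⟨w, h1, a', b', h2, h3, h4⟩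
      rw [num_inj] at h1 h2
      subst h1 h2
      exact ⟨b', h3, h4⟩
    · rintro ⟨m', h1, h2⟩
      exact ⟨a, rfl, a, m', rfl, h1, h2⟩

theorem d_tagZ (h1 : T_PAIR) (a : ℕ) (c i j : ℕ) :
    Dfn Base (fun _ v => tagZ a (v c) (v i) (v j)) :=
  ((d_pairN h1 (i+1) (j+1) 0).and (d_tagY h1 a (c+1) 0)).exOm.congr fun A hA v hv => by
    show (∃ w : ℕ, (∃ a' b', v i = num a' ∧ v j = num b' ∧ num w = num (Nat.pair a' b')) ∧
      ∃ m', num w = num m' ∧ v c = num (Nat.pair a m')) ↔ _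
    constructor
    · rintro ⟨w, ⟨a', b', h1, h2, h3⟩, m', h4, h5⟩
      rw [num_inj] at h3 h4
      subst h4; subst h3
      exact ⟨a', b', h1, h2, h5⟩
    · rintro ⟨i', j', h1, h2, h3⟩
      exact ⟨Nat.pair i' j', ⟨i', j', h1, h2, rfl⟩, _, rfl, h3⟩

theorem elem_re : REPred (fun n : ℕ => elemN n.unpair.1 n.unpair.2.unpair.1 n.unpair.2.unpair.2) := by
  have h : PrimrecPred (fun n : ℕ =>
      (Denumerable.ofNat (List ℕ) n.unpair.1)[n.unpair.2.unpair.1]? = some n.unpair.2.unpair.2) := by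
    refine Primrec.eq.comp (Primrec.list_getElem?.comp
      ((Primrec.ofNat (List ℕ)).comp (Primrec.fst.comp Primrec.unpair))
      (Primrec.fst.comp (Primrec.unpair.comp (Primrec.snd.comp Primrec.unpair))))
      (Primrec.option_some.comp
        (Primrec.snd.comp (Primrec.unpair.comp (Primrec.snd.comp Primrec.unpair))))
  exact (PrimrecPred.computablePred h).to_re

theorem d_elem (h1 : T_PAIR) (h2 : T_RE) (e k x : ℕ) :
    Dfn Base (fun _ v => elemZ (v e) (v k) (v x)) :=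
  (((d_pairN h1 (k+2) (x+2) 1).and (d_pairN h1 (e+2) 1 0)).and (h2 _ elem_re)).exOm.exOm.congr
    fun A hA v hv => by
    show (∃ u w : ℕ, ((∃ a' b', v k = num a' ∧ v x = num b' ∧ num u = num (Nat.pair a' b')) ∧
      (∃ a' b', v e = num a' ∧ num u = num b' ∧ num w = num (Nat.pair a' b'))) ∧
      ∃ n, num w = num n ∧ elemN n.unpair.1 n.unpair.2.unpair.1 n.unpair.2.unpair.2) ↔ _
    constructor
    · rintro ⟨u, w, ⟨⟨k', x', h3, h4, h5⟩, e', u', h6, h7, h8⟩, n, h9, h10⟩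
      rw [num_inj] at h5 h7 h8 h9
      subst h9 h8 h7 h5
      simp only [Nat.unpair_pair] at h10
      exact ⟨e', k', x', h6, h3, h4, h10⟩
    · rintro ⟨e', k', x', h3, h4, h5, h6⟩
      refine ⟨Nat.pair k' x', Nat.pair e' (Nat.pair k' x'), ⟨⟨k', x', h4, h5, rfl⟩,
        e', _, h3, rfl, rfl⟩, _, rfl, ?_⟩
      simp only [Nat.unpair_pair]
      exact h6

/-! ### the clauses -/

def TupZ (y e s t : ZFSet.{0}) : Prop :=
  (∀ q ∈ t, ∃ k x : ℕ, elemZ e (num k) (num x) ∧ ∃ z ∈ y, pair (num x) z ∈ s ∧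
    q = pair (num k) z) ∧
  (∀ k x : ℕ, elemZ e (num k) (num x) → ∃ q ∈ t, ∃ z ∈ y, pair (num x) z ∈ s ∧
    q = pair (num k) z)

def C0 (y s i j : ZFSet.{0}) : Prop := ∃ x ∈ y, pair i x ∈ s ∧ pair j x ∈ s
def C1 (y s i j : ZFSet.{0}) : Prop := ∃ x ∈ y, ∃ x' ∈ y, pair i x ∈ s ∧ pair j x' ∈ s ∧ x ∈ x'
def C2 (y s j e : ZFSet.{0}) : Prop := ∃ x ∈ y, pair j x ∈ s ∧ ∃ t ∈ x, TupZ y e s t
def C3 (R s m : ZFSet.{0}) : Prop := pair m s ∉ R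
def C4 (R s m m' : ZFSet.{0}) : Prop := pair m s ∈ R ∧ pair m' s ∈ R
def C5 (y F R s k m : ZFSet.{0}) : Prop :=
  ∀ a ∈ y, (∃ x ∈ y, pair (num 0) x ∈ s ∧ a ∈ x) → ∃ s' ∈ F, IsUpd s' s k a ∧ pair m s' ∈ R
def C6 (y F R s k m : ZFSet.{0}) : Prop :=
  ∀ a ∈ y, ∃ s' ∈ F, IsUpd s' s k a ∧ pair m s' ∈ R

def CL (y F R c s : ZFSet.{0}) : Prop :=
  (∃ i j : ℕ, tagZ 0 c (num i) (num j) ∧ C0 y s (num i) (num j)) ∨
  (∃ i j : ℕ, tagZ 1 c (num i) (num j) ∧ C1 y s (num i) (num j)) ∨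
  (∃ i j : ℕ, tagZ 2 c (num i) (num j) ∧ C2 y s (num i) (num j)) ∨
  (∃ m : ℕ, tagY 3 c (num m) ∧ C3 R s (num m)) ∨
  (∃ i j : ℕ, tagZ 4 c (num i) (num j) ∧ C4 R s (num i) (num j)) ∨
  (∃ i j : ℕ, tagZ 5 c (num i) (num j) ∧ C5 y F R s (num i) (num j)) ∨
  (∃ i j : ℕ, tagZ 6 c (num i) (num j) ∧ C6 y F R s (num i) (num j))

theorem d_TupZ (h1 : T_PAIR) (h2 : T_RE) (y e s t : ℕ) :
    Dfn Base (fun _ v => TupZ (v y) (v e) (v s) (v t)) := by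
  -- q = 2, k = 1, x = 0
  have a1 : Dfn Base (fun _ v => ∀ q ∈ v t, ∃ k x : ℕ, elemZ (v e) (num k) (num x) ∧
      ∃ z ∈ v y, pair (num x) z ∈ v s ∧ q = pair (num k) z) :=
    (((d_elem h1 h2 (e+3) 1 0).and (((d_app 1 0 (s+4)).and (d_pair 3 2 0)).exB (y+3))).exOm.exOm.allB
      t).congr fun _ _ _ _ => Iff.rfl
  -- k = 1, x = 0; q = 0, x = 1, k = 2
  have a2 : Dfn Base (fun _ v => ∀ k x : ℕ, elemZ (v e) (num k) (num x) → ∃ q ∈ v t, ∃ z ∈ v y,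
      pair (num x) z ∈ v s ∧ q = pair (num k) z) :=
    ((d_elem h1 h2 (e+2) 1 0).imp ((((d_app 2 0 (s+4)).and (d_pair 1 3 0)).exB (y+3)).exB
      (t+2))).allOm.allOm.congr fun _ _ _ _ => Iff.rfl
  exact (a1.and a2).congr fun _ _ _ _ => Iff.rfl

theorem d_C0 (y s i j : ℕ) : Dfn Base (fun _ v => C0 (v y) (v s) (v i) (v j)) :=
  (((d_app (i+1) 0 (s+1)).and (d_app (j+1) 0 (s+1))).exB y).congr fun _ _ _ _ => Iff.rfl

theorem d_C1 (y s i j : ℕ) : Dfn Base (fun _ v => C1 (v y) (v s) (v i) (v j)) :=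
  ((((d_app (i+2) 1 (s+2)).and ((d_app (j+2) 0 (s+2)).and (Dfn.mem 1 0))).exB (y+1)).exB y).congr
    fun _ _ _ _ => Iff.rfl

theorem d_C2 (h1 : T_PAIR) (h2 : T_RE) (y s j e : ℕ) :
    Dfn Base (fun _ v => C2 (v y) (v s) (v j) (v e)) :=
  (((d_app (j+1) 0 (s+1)).and ((d_TupZ h1 h2 (y+2) (e+2) (s+2) 0).exB 0)).exB y).congr
    fun _ _ _ _ => Iff.rfl

theorem d_C3 (R s m : ℕ) : Dfn Base (fun _ v => C3 (v R) (v s) (v m)) :=
  (d_app m s R).not.congr fun _ _ _ _ => Iff.rfl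

theorem d_C4 (R s m m' : ℕ) : Dfn Base (fun _ v => C4 (v R) (v s) (v m) (v m')) :=
  ((d_app m s R).and (d_app m' s R)).congr fun _ _ _ _ => Iff.rfl

theorem d_C6 (y F R s k m : ℕ) :
    Dfn Base (fun _ v => C6 (v y) (v F) (v R) (v s) (v k) (v m)) :=
  ((((d_upd 0 (s+2) (k+2) 1).and (d_app (m+2) 0 (R+2))).exB (F+1)).allB y).congr
    fun _ _ _ _ => Iff.rfl

theorem d_app0 (x s : ℕ) : Dfn Base (fun _ v => pair (num 0) (v x) ∈ v s) :=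
  ((d_emp 0).and (d_app 0 (x+1) (s+1))).exOm.congr fun A hA v hv => by
    show (∃ n : ℕ, num n = ∅ ∧ pair (num n) (v x) ∈ v s) ↔ _
    constructor
    · rintro ⟨n, h1, h2⟩
      rw [h1] at h2; exact h2
    · intro h
      exact ⟨0, rfl, h⟩

theorem d_C5 (y F R s k m : ℕ) :
    Dfn Base (fun _ v => C5 (v y) (v F) (v R) (v s) (v k) (v m)) :=
  (((((d_app0 0 (s+2)).and (Dfn.mem 1 0)).exB (y+1)).imp
    (((d_upd 0 (s+2) (k+2) 1).and (d_app (m+2) 0 (R+2))).exB (F+1))).allB y).congr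
    fun _ _ _ _ => Iff.rfl

theorem d_CL (h1 : T_PAIR) (h2 : T_RE) (y F R c s : ℕ) :
    Dfn Base (fun _ v => CL (v y) (v F) (v R) (v c) (v s)) :=
  (((d_tagZ h1 0 (c+2) 1 0).and (d_C0 (y+2) (s+2) 1 0)).exOm.exOm.or
  ((((d_tagZ h1 1 (c+2) 1 0).and (d_C1 (y+2) (s+2) 1 0)).exOm.exOm.or
  ((((d_tagZ h1 2 (c+2) 1 0).and (d_C2 h1 h2 (y+2) (s+2) 1 0)).exOm.exOm.or
  ((((d_tagY h1 3 (c+1) 0).and (d_C3 (R+1) (s+1) 0)).exOm.or
  ((((d_tagZ h1 4 (c+2) 1 0).and (d_C4 (R+2) (s+2) 1 0)).exOm.exOm.or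
  ((((d_tagZ h1 5 (c+2) 1 0).and (d_C5 (y+2) (F+2) (R+2) (s+2) 1 0)).exOm.exOm.or
  (((d_tagZ h1 6 (c+2) 1 0).and (d_C6 (y+2) (F+2) (R+2) (s+2) 1 0)).exOm.exOm)))))))))))).congr
    fun _ _ _ _ => Iff.rfl

/-! ### meaning of the clauses -/

section sem

variable {y R : ZFSet.{0}} {t : ℕ → ZFSet.{0}}

theorem elemZ_num {e k x : ℕ} : elemZ (num e) (num k) (num x) ↔ elemN e k x := by
  constructor
  · rintro ⟨e', k', x', h1, h2, h3, h4⟩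
    rw [num_inj] at h1 h2 h3
    rw [h1, h2, h3]; exact h4
  · intro h
    exact ⟨e, k, x, rfl, rfl, rfl, h⟩

theorem elemN_encode {xs : List ℕ} {k x : ℕ} :
    elemN (Encodable.encode xs) k x ↔ xs[k]? = some x := by
  unfold elemN
  rw [Denumerable.ofNat_encode]

theorem TupZ_iff (ht : FSup y t) (xs : List ℕ) (p : ZFSet.{0}) :
    TupZ y (num (Encodable.encode xs)) (fnZ t) p ↔ p = tupZ (xs.map t) := by
  have hmem : ∀ q, q ∈ tupZ (xs.map t) ↔ ∃ k x, xs[k]? = some x ∧ q = pair (num k) (t x) := by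
    intro q
    rw [mem_tupZ]
    constructor
    · rintro ⟨k, hk⟩
      have hk' : k.1 < xs.length := by simpa using k.2
      refine ⟨k.1, xs[k.1], by simp [hk'], ?_⟩
      rw [hk]; simp
    · rintro ⟨k, x, hk, rfl⟩
      obtain ⟨h1, h2⟩ := List.getElem?_eq_some_iff.1 hk
      refine ⟨⟨k, by simpa using h1⟩, ?_⟩
      simp [h2]
  constructor
  · rintro ⟨h1, h2⟩
    ext q
    rw [hmem]
    constructor
    · intro hq
      obtain ⟨k, x, h3, z, _, h5, rfl⟩ := h1 q hq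
      rw [elemZ_num, elemN_encode] at h3
      rw [pair_mem_fnZ] at h5
      exact ⟨k, x, h3, by rw [h5]⟩
    · rintro ⟨k, x, h3, rfl⟩
      obtain ⟨q, hq, z, _, h5, h6⟩ := h2 k x (by rw [elemZ_num, elemN_encode]; exact h3)
      rw [pair_mem_fnZ] at h5
      rw [← h5, ← h6]; exact hq
  · rintro rfl
    refine ⟨?_, ?_⟩
    · intro q hq
      obtain ⟨k, x, h3, rfl⟩ := (hmem q).1 hq
      exact ⟨k, x, by rw [elemZ_num, elemN_encode]; exact h3, t x, ht.1 x, pair_mem_fnZ.2 rfl, rfl⟩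
    · intro k x h3
      rw [elemZ_num, elemN_encode] at h3
      exact ⟨_, (hmem _).2 ⟨k, x, h3, rfl⟩, t x, ht.1 x, pair_mem_fnZ.2 rfl, rfl⟩

theorem C0_iff (ht : FSup y t) (i j : ℕ) : C0 y (fnZ t) (num i) (num j) ↔ t i = t j := by
  constructor
  · rintro ⟨x, _, h1, h2⟩
    rw [pair_mem_fnZ] at h1 h2
    rw [← h1, h2]
  · intro h
    exact ⟨t i, ht.1 i, pair_mem_fnZ.2 rfl, pair_mem_fnZ.2 h⟩

theorem C1_iff (ht : FSup y t) (i j : ℕ) : C1 y (fnZ t) (num i) (num j) ↔ t i ∈ t j := by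
  constructor
  · rintro ⟨x, _, x', _, h1, h2, h3⟩
    rw [pair_mem_fnZ] at h1 h2
    rw [← h1, ← h2]; exact h3
  · intro h
    exact ⟨t i, ht.1 i, t j, ht.1 j, pair_mem_fnZ.2 rfl, pair_mem_fnZ.2 rfl, h⟩

theorem C2_iff (ht : FSup y t) (j : ℕ) (xs : List ℕ) :
    C2 y (fnZ t) (num j) (num (Encodable.encode xs)) ↔ tupZ (xs.map t) ∈ t j := by
  constructor
  · rintro ⟨x, _, h1, p, hp, h2⟩
    rw [pair_mem_fnZ] at h1
    rw [TupZ_iff ht] at h2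
    rw [← h2, ← h1]; exact hp
  · intro h
    exact ⟨t j, ht.1 j, pair_mem_fnZ.2 rfl, _, h, (TupZ_iff ht xs _).2 rfl⟩

/-- `R` is correct for `ψ` -/
def Tr (y R : ZFSet.{0}) (ψ : NF) : Prop :=
  ∀ s : ℕ → ZFSet.{0}, FSup y s → (pair (num ψ.code) (fnZ s) ∈ R ↔ NSat y ψ s)

theorem ex_upd (ht : FSup y t) {k : ℕ} {a : ZFSet.{0}} (ha : a ∈ y) {ψ : NF} (h : Tr y R ψ) :
    (∃ s' ∈ FSet y, IsUpd s' (fnZ t) (num k) a ∧ pair (num ψ.code) s' ∈ R) ↔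
      NSat y ψ (Function.update t k a) := by
  constructor
  · rintro ⟨s', hs', h1, h2⟩
    obtain ⟨u, hu, rfl⟩ := mem_FSet.1 hs'
    rw [isUpd_iff] at h1
    rw [← h1]
    exact (h u hu).1 h2
  · intro h1
    exact ⟨_, fnZ_mem_FSet.2 (ht.update k ha), isUpd_iff.2 rfl, (h _ (ht.update k ha)).2 h1⟩

theorem C5_iff (ht : FSup y t) (k : ℕ) {ψ : NF} (h : Tr y R ψ) :
    C5 y (FSet y) R (fnZ t) (num k) (num ψ.code) ↔
      ∀ a ∈ y, a ∈ t 0 → NSat y ψ (Function.update t k a) := by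
  unfold C5
  refine forall₂_congr fun a ha => ?_
  rw [ex_upd ht ha h]
  refine imp_congr ?_ Iff.rfl
  constructor
  · rintro ⟨x, _, h1, h2⟩
    rw [pair_mem_fnZ] at h1
    rw [← h1]; exact h2
  · intro h1
    exact ⟨t 0, ht.1 0, pair_mem_fnZ.2 rfl, h1⟩

theorem C6_iff (ht : FSup y t) (k : ℕ) {ψ : NF} (h : Tr y R ψ) :
    C6 y (FSet y) R (fnZ t) (num k) (num ψ.code) ↔
      ∀ a ∈ y, NSat y ψ (Function.update t k a) := by
  unfold C6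
  exact forall₂_congr fun a ha => ex_upd ht ha h

theorem tagZ_num {a n i j : ℕ} : tagZ a (num n) (num i) (num j) ↔ n = Nat.pair a (Nat.pair i j) := by
  constructor
  · rintro ⟨i', j', h1, h2, h3⟩
    rw [num_inj] at h1 h2 h3
    rw [h1, h2, h3]
  · intro h
    exact ⟨i, j, rfl, rfl, by rw [h]⟩

theorem tagY_num {a n m : ℕ} : tagY a (num n) (num m) ↔ n = Nat.pair a m := by
  constructor
  · rintro ⟨m', h1, h3⟩
    rw [num_inj] at h1 h3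
    rw [h1, h3]
  · intro h
    exact ⟨m, rfl, by rw [h]⟩

/-- correctness for the immediate subformulas -/
def SubT (y R : ZFSet.{0}) : NF → Prop
  | .eq _ _ => True
  | .mem _ _ => True
  | .tup _ _ => True
  | .neg ψ => Tr y R ψ
  | .and ψ ψ' => Tr y R ψ ∧ Tr y R ψ'
  | .allD _ ψ => Tr y R ψ
  | .all _ ψ => Tr y R ψ

theorem CL_iff (ht : FSup y t) (φ : NF) (h : SubT y R φ) :
    CL y (FSet y) R (num φ.code) (fnZ t) ↔ NSat y φ t := by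
  unfold CL
  simp only [tagZ_num, tagY_num]
  cases φ with
  | eq i j =>
    simp only [NF.code, pair_eq, NSat]
    rw [← C0_iff ht i j]
    constructor
    · rintro (⟨i', j', ⟨_, rfl, rfl⟩, h⟩ | ⟨_, _, ⟨h, _⟩, _⟩ | ⟨_, _, ⟨h, _⟩, _⟩ | ⟨_, ⟨h, _⟩, _⟩ |
        ⟨_, _, ⟨h, _⟩, _⟩ | ⟨_, _, ⟨h, _⟩, _⟩ | ⟨_, _, ⟨h, _⟩, _⟩)
      · exact h
      all_goals omega
    · intro h
      exact Or.inl ⟨i, j, ⟨trivial, rfl, rfl⟩, h⟩
  | mem i j =>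
    simp only [NF.code, pair_eq, NSat]
    rw [← C1_iff ht i j]
    constructor
    · rintro (⟨_, _, ⟨h, _⟩, _⟩ | ⟨i', j', ⟨_, rfl, rfl⟩, h⟩ | ⟨_, _, ⟨h, _⟩, _⟩ | ⟨_, ⟨h, _⟩, _⟩ |
        ⟨_, _, ⟨h, _⟩, _⟩ | ⟨_, _, ⟨h, _⟩, _⟩ | ⟨_, _, ⟨h, _⟩, _⟩)
      · omega
      · exact h
      all_goals omega
    · intro h
      exact Or.inr (Or.inl ⟨i, j, ⟨trivial, rfl, rfl⟩, h⟩)
  | tup j xs =>
    simp only [NF.code, pair_eq, NSat]
    rw [← C2_iff ht j xs]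
    constructor
    · rintro (⟨_, _, ⟨h, _⟩, _⟩ | ⟨_, _, ⟨h, _⟩, _⟩ | ⟨i', j', ⟨_, rfl, rfl⟩, h⟩ | ⟨_, ⟨h, _⟩, _⟩ |
        ⟨_, _, ⟨h, _⟩, _⟩ | ⟨_, _, ⟨h, _⟩, _⟩ | ⟨_, _, ⟨h, _⟩, _⟩)
      · omega
      · omega
      · exact h
      all_goals omega
    · intro h
      exact Or.inr (Or.inr (Or.inl ⟨j, _, ⟨trivial, rfl, rfl⟩, h⟩))
  | neg ψ =>
    have hψ : Tr y R ψ := h
    simp only [NF.code, pair_eq, NSat]
    rw [← hψ t ht]
    constructor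
    · rintro (⟨_, _, ⟨h, _⟩, _⟩ | ⟨_, _, ⟨h, _⟩, _⟩ | ⟨_, _, ⟨h, _⟩, _⟩ | ⟨m, ⟨_, rfl⟩, h⟩ |
        ⟨_, _, ⟨h, _⟩, _⟩ | ⟨_, _, ⟨h, _⟩, _⟩ | ⟨_, _, ⟨h, _⟩, _⟩)
      · omega
      · omega
      · omega
      · exact h
      all_goals omega
    · intro h
      exact Or.inr (Or.inr (Or.inr (Or.inl ⟨_, ⟨trivial, rfl⟩, h⟩)))
  | and ψ ψ' =>
    have hψ : Tr y R ψ ∧ Tr y R ψ' := h
    simp only [NF.code, pair_eq, NSat]
    rw [← hψ.1 t ht, ← hψ.2 t ht]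
    constructor
    · rintro (⟨_, _, ⟨h, _⟩, _⟩ | ⟨_, _, ⟨h, _⟩, _⟩ | ⟨_, _, ⟨h, _⟩, _⟩ | ⟨_, ⟨h, _⟩, _⟩ |
        ⟨_, _, ⟨_, rfl, rfl⟩, h⟩ | ⟨_, _, ⟨h, _⟩, _⟩ | ⟨_, _, ⟨h, _⟩, _⟩)
      · omega
      · omega
      · omega
      · omega
      · exact h
      all_goals omega
    · intro h
      exact Or.inr (Or.inr (Or.inr (Or.inr (Or.inl ⟨_, _, ⟨trivial, rfl, rfl⟩, h⟩))))
  | allD k ψ =>
    have hψ : Tr y R ψ := h
    simp only [NF.code, pair_eq, NSat]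
    rw [← C5_iff ht k hψ]
    constructor
    · rintro (⟨_, _, ⟨h, _⟩, _⟩ | ⟨_, _, ⟨h, _⟩, _⟩ | ⟨_, _, ⟨h, _⟩, _⟩ | ⟨_, ⟨h, _⟩, _⟩ |
        ⟨_, _, ⟨h, _⟩, _⟩ | ⟨_, _, ⟨_, rfl, rfl⟩, h⟩ | ⟨_, _, ⟨h, _⟩, _⟩)
      · omega
      · omega
      · omega
      · omega
      · omega
      · exact h
      all_goals omega
    · intro h
      exact Or.inr (Or.inr (Or.inr (Or.inr (Or.inr (Or.inl ⟨_, _, ⟨trivial, rfl, rfl⟩, h⟩)))))
  | all k ψ =>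
    have hψ : Tr y R ψ := h
    simp only [NF.code, pair_eq, NSat]
    rw [← C6_iff ht k hψ]
    constructor
    · rintro (⟨_, _, ⟨h, _⟩, _⟩ | ⟨_, _, ⟨h, _⟩, _⟩ | ⟨_, _, ⟨h, _⟩, _⟩ | ⟨_, ⟨h, _⟩, _⟩ |
        ⟨_, _, ⟨h, _⟩, _⟩ | ⟨_, _, ⟨h, _⟩, _⟩ | ⟨_, _, ⟨_, rfl, rfl⟩, h⟩)
      · omega
      · omega
      · omega
      · omega
      · omega
      · omega
      · exact h
    · intro h
      exact Or.inr (Or.inr (Or.inr (Or.inr (Or.inr (Or.inr ⟨_, _, ⟨trivial, rfl, rfl⟩, h⟩)))))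

theorem RSet_iff (y R : ZFSet.{0}) : R = RSet y ↔
    (∀ q ∈ R, ∃ n : ℕ, ∃ s ∈ FSet y, q = pair (num n) s ∧ codeZ (num n)) ∧
    (∀ n : ℕ, codeZ (num n) → ∀ s ∈ FSet y, (pair (num n) s ∈ R ↔ CL y (FSet y) R (num n) s)) := by
  have hcode : ∀ n : ℕ, codeZ (num n) ↔ ∃ φ : NF, φ.code = n := by
    intro n
    constructor
    · rintro ⟨m, h1, h2⟩
      rw [num_inj] at h1
      rw [h1]; exact h2
    · intro h
      exact ⟨n, rfl, h⟩
  constructor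
  · rintro rfl
    have hT : ∀ ψ : NF, Tr y (RSet y) ψ := by
      intro ψ s hs
      rw [pair_mem_RSet]
      exact ⟨fun h => h.2, fun h => ⟨hs, h⟩⟩
    refine ⟨?_, ?_⟩
    · intro q hq
      obtain ⟨φ, s, hs, _, rfl⟩ := mem_RSet.1 hq
      exact ⟨φ.code, fnZ s, fnZ_mem_FSet.2 hs, rfl, (hcode _).2 ⟨φ, rfl⟩⟩
    · intro n hn s hs
      obtain ⟨φ, rfl⟩ := (hcode n).1 hn
      obtain ⟨t, ht, rfl⟩ := mem_FSet.1 hs
      rw [CL_iff ht φ (by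
        cases φ with
        | eq i j => trivial
        | mem i j => trivial
        | tup j xs => trivial
        | neg ψ => exact hT ψ
        | and ψ ψ' => exact ⟨hT ψ, hT ψ'⟩
        | allD k ψ => exact hT ψ
        | all k ψ => exact hT ψ)]
      exact hT φ t ht
  · rintro ⟨hA, hB⟩
    have hstep : ∀ φ : NF, SubT y R φ → Tr y R φ := by
      intro φ hφ s hs
      rw [hB φ.code ((hcode _).2 ⟨φ, rfl⟩) (fnZ s) (fnZ_mem_FSet.2 hs)]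
      exact CL_iff hs φ hφ
    have hT : ∀ ψ : NF, Tr y R ψ := by
      intro ψ
      induction ψ with
      | eq i j => exact hstep _ trivial
      | mem i j => exact hstep _ trivial
      | tup j xs => exact hstep _ trivial
      | neg ψ ih => exact hstep _ ih
      | and ψ ψ' ih ih' => exact hstep _ ⟨ih, ih'⟩
      | allD k ψ ih => exact hstep _ ih
      | all k ψ ih => exact hstep _ ih
    ext q
    constructor
    · intro hq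
      obtain ⟨n, s, hs, rfl, hn⟩ := hA q hq
      obtain ⟨φ, rfl⟩ := (hcode n).1 hn
      obtain ⟨t, ht, rfl⟩ := mem_FSet.1 hs
      exact pair_mem_RSet.2 ⟨ht, (hT φ t ht).1 hq⟩
    · intro hq
      obtain ⟨φ, s, hs, h, rfl⟩ := mem_RSet.1 hq
      exact (hT φ s hs).2 h

end sem

theorem rsTask (h1 : T_PAIR) (h2 : T_RE) (h3 : T_FS) : T_RS := by
  have e1 : Dfn Base (fun _ v => v 2 = FSet (v 1)) :=
    (Dfn.ren (fun n => match n with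
      | 0 => 2
      | _ => 1) h3).congr fun _ _ _ _ => Iff.rfl
  have e2 : Dfn Base (fun _ v => codeZ (v 0)) := (h2 _ isCode_re).congr fun _ _ _ _ => Iff.rfl
  have e3 : Dfn Base (fun _ v => ∀ q ∈ v 0, ∃ n : ℕ, ∃ s ∈ v 2, q = pair (num n) s ∧
      codeZ (num n)) :=
    ((((d_pair 2 1 0).and (e2.ren (fun _ => 1))).exB 4).exOm.allB 0).congr fun _ _ _ _ => Iff.rfl
  have e4 : Dfn Base (fun _ v => ∀ n : ℕ, codeZ (num n) → ∀ s ∈ v 2,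
      (pair (num n) s ∈ v 0 ↔ CL (v 1) (v 2) (v 0) (num n) s)) :=
    (e2.imp (((d_app 1 0 2).iff (d_CL h1 h2 3 4 2 1 0)).allB 3)).allOm.congr
      fun _ _ _ _ => Iff.rfl
  refine ((e3.and e4).and e1).congr fun A hA v hv => ?_
  refine and_congr_left fun hF => ?_
  rw [RSet_iff, hF]

end Pool.Agent.W352.VL
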