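import Pool.Agent.W886.VL.Stm

set_option autoImplicit false

namespace Pool.Agent.W352.VL

open Pool.Agent.W886.VL
open SOCat (Fml cons)
open ZFSet (pair omega)

theorem relTask : T_REL := by
  intro φ
  induction φ with
  | mem i j => exact Dfn.mem (i + 1) (j + 1)
  | eq i j => exact Dfn.eq (i + 1) (j + 1)
  | neg φ ih => exact ih.not
  | and φ ψ ih1 ih2 => exact ih1.and ih2
  | all φ ih =>
    have h := (ih.ren (fun n => match n with
      | 0 => 1
      | 1 => 0
      | n + 2 => n + 2)).allB 0
    refine h.congr ?_
    intro A hA v hv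
    show (∀ a ∈ v 0, Sat (v 0) φ _) ↔ ∀ a ∈ v 0, Sat (v 0) φ (cons a fun n => v (n + 1))
    refine forall₂_congr fun a ha => ?_
    have : (fun n => (fun n => cons a v ((fun n => match n with
      | 0 => 1
      | 1 => 0
      | n + 2 => n + 2) n)) (n + 1)) = cons a (fun n => v (n + 1)) := by
      funext n
      cases n <;> rfl
    exact Iff.of_eq (congrArg (Sat (v 0) φ) this)

end Pool.Agent.W352.VL
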