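import Pool.Agent.W886.VL.Stm
import Pool.Agent.W352.VL.FS

set_option autoImplicit false

namespace Pool.Agent.W352.VL

open Pool.Agent.W886.VL
open SOCat
open ZFSet (pair omega)

theorem isStrCode_fn {τ : Voc} {b : ZFSet.{0}} (h : IsStrCode τ b) :
    ∃ s : ℕ → ZFSet.{0}, b = fnZ s ∧ ∃ N, ∀ n, N ≤ n → s n = ∅ := by
  obtain ⟨M, S, s, e, h1, h2, _⟩ := h
  refine ⟨s, h1, 3 * (τ.nR + τ.nF) + 1, fun n hn => h2 n ?_⟩
  intro k hk
  omega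

theorem tiTask (h1 : T_HH) (h2 : T_FS) (h3 : T_RS) (h4 : T_SC) (h5 : T_RE) : T_TI := by
  intro C hC hcode τ
  have hB : ∀ A, IsHH A → Base A := by
    rintro A ⟨M, hM, rfl⟩
    exact h1.base M
  have : BC IsHH := ⟨hB⟩
  -- F = 1, R = 0 after two quantifiers; X = 2, b = 3
  have d1 : Dfn IsHH (fun _ v => v 0 = RSet (v 2) ∧ v 1 = FSet (v 2)) :=
    ((h3.mono hB).ren (fun n => match n with
      | 0 => 0
      | 1 => 2
      | _ => 1)).congr fun _ _ _ _ => Iff.rfl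
  have d2 : Dfn IsHH (fun _ v => ∀ n : ℕ, (∃ m, num n = num m ∧ C m) → pair (num n) (v 3) ∈ v 0) :=
    (((h5 C hC).mono hB).imp (d_app 0 4 1)).allOm.congr fun _ _ _ _ => Iff.rfl
  have d3 : Dfn IsHH (fun _ v => IsStrCode τ (v 1)) :=
    (((h4 τ).mono hB).ren (fun _ => 1)).congr fun _ _ _ _ => Iff.rfl
  have d4 : Dfn IsHH (fun A v => ∃ F ∈ A, ∃ R ∈ A, (R = RSet (v 0) ∧ F = FSet (v 0)) ∧
      ∀ n : ℕ, (∃ m, num n = num m ∧ C m) → pair (num n) (v 1) ∈ R) :=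
    (d1.and d2).ex.ex.congr fun _ _ _ _ => Iff.rfl
  refine ((d_trans 0).and ((Pool.Agent.W886.VL.Dfn.mem 1 0).and (d3.and d4))).congr ?_
  rintro A ⟨M, hM, rfl⟩ v hv
  refine and_congr_right fun htr => and_congr_right fun hm => and_congr_right fun hsc => ?_
  obtain ⟨s, hs, N, hN⟩ := isStrCode_fn hsc
  have hmem : ∀ n, s n ∈ v 0 := by
    intro n
    have h6 : pair (num n) (s n) ∈ v 1 := by rw [hs]; exact pair_mem_fnZ.2 rfl
    have h7 : pair (num n) (s n) ∈ v 0 := htr _ hm h6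
    have h8 : ({num n, s n} : ZFSet.{0}) ∈ v 0 := htr _ h7 (ZFSet.mem_pair.2 (Or.inr rfl))
    exact htr _ h8 (ZFSet.mem_pair.2 (Or.inr rfl))
  have hfs : FSup (v 0) s := ⟨hmem, N, hN⟩
  have hval : val (v 1) = s := by
    funext n
    rw [hs, val_fnZ]
  constructor
  · rintro ⟨F, _, R, _, ⟨rfl, rfl⟩, h⟩ φ hφ
    have h9 := h φ.code ⟨_, rfl, hφ⟩
    rw [hs, pair_mem_RSet] at h9
    rw [hval]
    exact h9.2
  · intro h
    obtain ⟨h6, h7⟩ := h1.fs M (v 0) (hv 0)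
    refine ⟨_, h6, _, h7, ⟨rfl, rfl⟩, ?_⟩
    rintro n ⟨m, hnm, hm'⟩
    obtain ⟨φ, hφ⟩ := hcode m hm'
    rw [hnm, ← hφ, hs, pair_mem_RSet]
    refine ⟨hfs, ?_⟩
    have := h φ (hφ ▸ hm')
    rwa [hval] at this

end Pool.Agent.W352.VL
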